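import Pool.Agent.H41.AUG.GStmts
import Pool.Agent.H41.CP.Final
import Pool.Agent.H48.AUG.Halld
import Pool.Agent.H48.AUG.Low
import Pool.Agent.H187.AUG.Tight
import Pool.Agent.H100.AUG.Force
import Pool.Agent.H772.AUG.Del
import Pool.Agent.H700.AUG.Weak
import Pool.Agent.H411.AUG.Cnt
import Pool.Agent.H241.AUG.Arith2
import Pool.Agent.H670.AUG.Main2
import Pool.Agent.H874.AUG.Red
import Pool.Agent.H93.AUG.Disc

set_option autoImplicit false

/-!
The two main theorems of the augmentation method.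
-/

namespace Pool.Agent.H41.AUG

open Pool.Agent.H41.CP (nb dg Cover MadLT corrPackingNumber cover_of_perm number_le)

theorem main_aug : S_AUG2 :=
  Pool.Agent.H670.AUG.aug2 Pool.Agent.H48.AUG.halld Pool.Agent.H187.AUG.tight
    Pool.Agent.H187.AUG.add Pool.Agent.H100.AUG.force2
    (Pool.Agent.H772.AUG.del Pool.Agent.H48.AUG.halld Pool.Agent.H187.AUG.tight)
    (Pool.Agent.H772.AUG.nonrob Pool.Agent.H48.AUG.halld Pool.Agent.H187.AUG.tight)
    (Pool.Agent.H700.AUG.weak
      (Pool.Agent.H772.AUG.del Pool.Agent.H48.AUG.halld Pool.Agent.H187.AUG.tight)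
      Pool.Agent.H187.AUG.tight)
    Pool.Agent.H411.AUG.cnt Pool.Agent.H241.AUG.arith2

theorem main_low : S_LOW := Pool.Agent.H48.AUG.low Pool.Agent.H48.AUG.halld

theorem main_red : S_RED := Pool.Agent.H874.AUG.red Pool.Agent.H48.AUG.halld main_aug

theorem packs_low {V : Type} [DecidableEq V] (G : SimpleGraph V) [DecidableRel G.Adj]
    (n Δ : ℕ) (h : 2 * Δ ≤ n)
    (σ : V → V → Equiv.Perm (Fin n)) (hσ : ∀ u v, G.Adj u v → σ v u = (σ u v)⁻¹)
    (hdeg : ∀ (W : Finset V) (v : V), dg G W v ≤ Δ) (W : Finset V) : ∃ φ, Packs G σ W φ := by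
  induction W using Finset.strongInduction with
  | H W ih =>
    rcases W.eq_empty_or_nonempty with rfl | ⟨w, hw⟩
    · exact ⟨fun _ => 1, fun u hu => absurd hu (Finset.notMem_empty _)⟩
    obtain ⟨φ, hφ⟩ := ih _ (Finset.erase_ssubset hw)
    have := hdeg W w
    exact main_low n V G σ hσ W w hw (by omega) φ hφ

theorem dg_le {V : Type} [Fintype V] [DecidableEq V] (G : SimpleGraph V) [DecidableRel G.Adj]
    (W : Finset V) (v : V) : dg G W v ≤ G.maxDegree := by
  refine le_trans ?_ (G.degree_le_maxDegree v)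
  rw [dg, nb, ← G.card_neighborFinset_eq_degree]
  refine Finset.card_le_card fun u hu => ?_
  rw [SimpleGraph.mem_neighborFinset]
  exact (Finset.mem_filter.1 hu).2

/-- the packing theorem for maximum degree `Δ`, in the form of an integer inequality -/
theorem packing_of_maxDegree {V : Type} [Fintype V] (G : SimpleGraph V) [DecidableRel G.Adj]
    (n : ℕ)
    (h : 2 * G.maxDegree ≤ n ∨ (3 * G.maxDegree < 2 * n ∧ G.maxDegree + 2 ≤ n ∧
      (G.maxDegree : ℤ) * (n + G.maxDegree + 4) < (n + 1) * (n + 2)))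
    (C : Cover G n) : C.HasPacking := by
  classical
  refine cover_of_perm G n ?_ C
  intro σ hσ
  have key : ∃ φ, Packs G σ Finset.univ φ := by
    rcases h with h | ⟨h1, h2, h3⟩
    · exact packs_low G n G.maxDegree h σ hσ (fun W v => by
        convert dg_le G W v) Finset.univ
    · exact packs_deg G main_low main_red n G.maxDegree h1 h2 (by linarith) σ hσ (fun W v => by
        convert dg_le G W v) Finset.univ
  obtain ⟨φ, hφ⟩ := key
  exact ⟨φ, fun u v huv i => hφ u (Finset.mem_univ _) v (Finset.mem_univ _) huv i⟩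

/-- the golden ratio bound -/
theorem packing_golden {V : Type} [Fintype V] (G : SimpleGraph V) [DecidableRel G.Adj]
    (n : ℕ) (h : Real.goldenRatio * G.maxDegree < n) (C : Cover G n) : C.HasPacking := by
  apply packing_of_maxDegree
  set Δ := G.maxDegree with hΔ
  by_cases h2 : 2 * Δ ≤ n
  · exact Or.inl h2
  right
  push Not at h2
  have hφ := Real.goldenRatio_sq
  have hφ1 : (1.6 : ℝ) < Real.goldenRatio := by
    unfold Real.goldenRatio
    have : (2.2 : ℝ) < √5 := by
      rw [show (2.2 : ℝ) = √(2.2 ^ 2) by rw [Real.sqrt_sq (by norm_num)]]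
      exact Real.sqrt_lt_sqrt (by norm_num) (by norm_num)
    linarith
  have hφ2 : Real.goldenRatio < 2 := Real.goldenRatio_lt_two
  have hn : (0 : ℝ) ≤ n := Nat.cast_nonneg n
  have hD : (0 : ℝ) ≤ Δ := Nat.cast_nonneg Δ
  have hpos : 1 ≤ Δ := by omega
  have hposR : (1 : ℝ) ≤ Δ := by exact_mod_cast hpos
  have h16 : (1.6 : ℝ) * Δ < n := by nlinarith
  have h16' : 16 * Δ < 10 * n := by
    have : ((16 * Δ : ℕ) : ℝ) < ((10 * n : ℕ) : ℝ) := by push_cast; linarith
    exact_mod_cast this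
  refine ⟨by omega, by omega, ?_⟩
  have hq : (0 : ℝ) < (n : ℝ) ^ 2 - n * Δ - Δ ^ 2 := by
    have e : (n : ℝ) ^ 2 - n * Δ - Δ ^ 2 =
        (n - Real.goldenRatio * Δ) * (n + (Real.goldenRatio - 1) * Δ) +
          (Real.goldenRatio ^ 2 - Real.goldenRatio - 1) * Δ ^ 2 := by ring
    rw [e, hφ]
    have : 0 < (n - Real.goldenRatio * Δ) * (n + (Real.goldenRatio - 1) * Δ) :=
      mul_pos (by linarith) (by nlinarith)
    linarith
  have hlast : ((Δ : ℝ)) * (n + Δ + 4) < (n + 1) * (n + 2) := by nlinarith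
  exact_mod_cast hlast

/-- the maximum average degree bound -/
theorem packing_mad {V : Type} [Fintype V] (G : SimpleGraph V) (n : ℕ) (hn : 4 ≤ n)
    (h : MadLT G ((3 * n + 2) / 5)) (C : Cover G n) : C.HasPacking := by
  classical
  refine cover_of_perm G n ?_ C
  intro σ hσ
  have hm : ∀ S : Finset V, S.Nonempty →
      5 * ((S ×ˢ S).filter (fun p => G.Adj p.1 p.2)).card < (3 * n + 2) * S.card := by
    intro S hS
    have h1 := h S hS
    have h2 : {p : V × V | p.1 ∈ S ∧ p.2 ∈ S ∧ G.Adj p.1 p.2} =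
        (((S ×ˢ S).filter (fun p => G.Adj p.1 p.2) : Finset (V × V)) : Set (V × V)) := by
      ext p; simp [and_assoc]
    rw [h2, Set.ncard_coe_finset] at h1
    have h3 : (5 * ((S ×ˢ S).filter (fun p => G.Adj p.1 p.2)).card : ℝ) <
        (3 * n + 2) * S.card := by
      linarith
    exact_mod_cast h3
  obtain ⟨φ, hφ⟩ := packs_mad G Pool.Agent.H93.AUG.disc main_low main_red n hn σ hσ hm Finset.univ
  exact ⟨φ, fun u v huv i => hφ u (Finset.mem_univ _) v (Finset.mem_univ _) huv i⟩

end Pool.Agent.H41.AUG
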