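import Pool.Agent.H41.AUG.Stmts2
import Pool.Agent.H41.CP.Defs

set_option autoImplicit false

/-!
# Graph level statements and the assembly
-/

namespace Pool.Agent.H41.AUG

open Pool.Agent.H41.CP (nb dg)

/-- `φ` is a packing on `W` of the cover given by the permutations `σ u v`. -/
def Packs {n : ℕ} {V : Type} (G : SimpleGraph V) (σ : V → V → Equiv.Perm (Fin n)) (W : Finset V)
    (φ : V → Equiv.Perm (Fin n)) : Prop :=
  ∀ u ∈ W, ∀ v ∈ W, G.Adj u v → ∀ i, φ v i ≠ σ u v (φ u i)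

/-- G1 : a vertex of degree at most `n / 2` -/
def S_LOW : Prop := ∀ (n : ℕ) (V : Type) [DecidableEq V] (G : SimpleGraph V) [DecidableRel G.Adj]
    (σ : V → V → Equiv.Perm (Fin n)), (∀ u v, G.Adj u v → σ v u = (σ u v)⁻¹) →
    ∀ (W : Finset V) (w : V), w ∈ W → 2 * dg G W w ≤ n →
    ∀ φ : V → Equiv.Perm (Fin n), Packs G σ (W.erase w) φ → ∃ ψ, Packs G σ W ψ

/-- G2 : a vertex whose neighbours have small degrees -/
def S_RED : Prop := ∀ (n : ℕ) (V : Type) [DecidableEq V] (G : SimpleGraph V) [DecidableRel G.Adj]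
    (σ : V → V → Equiv.Perm (Fin n)), (∀ u v, G.Adj u v → σ v u = (σ u v)⁻¹) →
    ∀ (W : Finset V) (w : V), w ∈ W → dg G W w + 2 ≤ n → 3 * dg G W w < 2 * n →
    ((∑ u ∈ nb G W w, min (dg G W w) (2 * dg G W u - n) : ℕ) : ℤ) <
      ((n : ℤ) - dg G W w + 1) ^ 2 + 1 - (2 * dg G W w - n) →
    ∀ φ : V → Equiv.Perm (Fin n), Packs G σ (W.erase w) φ → ∃ ψ, Packs G σ W ψ

/-- G3 : discharging -/
def S_DISC : Prop := ∀ (n : ℕ) (V : Type) [DecidableEq V] (G : SimpleGraph V) [DecidableRel G.Adj]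
    (W : Finset V), 4 ≤ n → 5 * ∑ v ∈ W, dg G W v < (3 * n + 2) * W.card →
    (∃ w ∈ W, 2 * dg G W w ≤ n) ∨
    (∃ w ∈ W, dg G W w + 2 ≤ n ∧ 3 * dg G W w < 2 * n ∧
      ((∑ u ∈ nb G W w, min (dg G W w) (2 * dg G W u - n) : ℕ) : ℤ) <
        ((n : ℤ) - dg G W w + 1) ^ 2 + 1 - (2 * dg G W w - n))

section Assemble

variable {V : Type} [DecidableEq V] (G : SimpleGraph V) [DecidableRel G.Adj]

omit [DecidableEq V] in
theorem sum_eq (W : Finset V) :
    ((W ×ˢ W).filter (fun p => G.Adj p.1 p.2)).card = ∑ v ∈ W, dg G W v := by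
  rw [Finset.card_filter, Finset.sum_product]
  refine Finset.sum_congr rfl fun v _ => ?_
  rw [dg, nb, Finset.card_filter]

/-- Maximum average degree below `(3n+2)/5`, `n ≥ 4`. -/
theorem packs_mad (hdis : S_DISC) (hlow : S_LOW) (hred : S_RED) (n : ℕ) (hn : 4 ≤ n)
    (σ : V → V → Equiv.Perm (Fin n)) (hσ : ∀ u v, G.Adj u v → σ v u = (σ u v)⁻¹)
    (hmad : ∀ S : Finset V, S.Nonempty →
      5 * ((S ×ˢ S).filter (fun p => G.Adj p.1 p.2)).card < (3 * n + 2) * S.card)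
    (W : Finset V) : ∃ φ, Packs G σ W φ := by
  induction W using Finset.strongInduction with
  | H W ih =>
    rcases W.eq_empty_or_nonempty with rfl | hne
    · exact ⟨fun _ => 1, fun u hu => absurd hu (Finset.notMem_empty _)⟩
    have hs := hmad W hne
    rw [sum_eq] at hs
    rcases hdis n V G W hn hs with ⟨w, hw, h1⟩ | ⟨w, hw, h1, h2, h3⟩
    · obtain ⟨φ, hφ⟩ := ih _ (Finset.erase_ssubset hw)
      exact hlow n V G σ hσ W w hw h1 φ hφ
    · obtain ⟨φ, hφ⟩ := ih _ (Finset.erase_ssubset hw)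
      exact hred n V G σ hσ W w hw h1 h2 h3 φ hφ

/-- Maximum degree at most `Δ`. -/
theorem packs_deg (hlow : S_LOW) (hred : S_RED) (n Δ : ℕ)
    (h3 : 3 * Δ < 2 * n) (h2 : Δ + 2 ≤ n)
    (hΔ : (Δ : ℤ) * (2 * Δ - n) < ((n : ℤ) - Δ + 1) ^ 2 + 1 - (2 * Δ - n))
    (σ : V → V → Equiv.Perm (Fin n)) (hσ : ∀ u v, G.Adj u v → σ v u = (σ u v)⁻¹)
    (hdeg : ∀ (W : Finset V) (v : V), dg G W v ≤ Δ) (W : Finset V) : ∃ φ, Packs G σ W φ := by
  induction W using Finset.strongInduction with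
  | H W ih =>
    rcases W.eq_empty_or_nonempty with rfl | ⟨w, hw⟩
    · exact ⟨fun _ => 1, fun u hu => absurd hu (Finset.notMem_empty _)⟩
    obtain ⟨φ, hφ⟩ := ih _ (Finset.erase_ssubset hw)
    by_cases h : 2 * dg G W w ≤ n
    · exact hlow n V G σ hσ W w hw h φ hφ
    push Not at h
    have hx := hdeg W w
    refine hred n V G σ hσ W w hw (by omega) (by omega) ?_ φ hφ
    have hle : (∑ u ∈ nb G W w, min (dg G W w) (2 * dg G W u - n)) ≤ dg G W w * (2 * Δ - n) := by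
      have : ∀ u ∈ nb G W w, min (dg G W w) (2 * dg G W u - n) ≤ 2 * Δ - n := by
        intro u _
        have := hdeg W u
        exact (min_le_right _ _).trans (by omega)
      calc _ ≤ ∑ _u ∈ nb G W w, (2 * Δ - n) := Finset.sum_le_sum this
        _ = dg G W w * (2 * Δ - n) := by rw [Finset.sum_const, smul_eq_mul, dg]
    have hc : ((dg G W w * (2 * Δ - n) : ℕ) : ℤ) = (dg G W w : ℤ) * (2 * Δ - n) := by
      rw [Nat.cast_mul, Nat.cast_sub (by omega)]; push_cast; ring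
    have hle' : ((∑ u ∈ nb G W w, min (dg G W w) (2 * dg G W u - n) : ℕ) : ℤ) ≤
        (dg G W w : ℤ) * (2 * Δ - n) := by
      rw [← hc]; exact_mod_cast hle
    refine lt_of_le_of_lt hle' ?_
    have hx' : (dg G W w : ℤ) ≤ Δ := by exact_mod_cast hx
    have hn' : (Δ : ℤ) + 2 ≤ n := by exact_mod_cast h2
    have hk : (0 : ℤ) ≤ 2 * Δ - n := by
      have : (n : ℤ) < 2 * dg G W w := by exact_mod_cast h
      linarith
    nlinarith [mul_le_mul_of_nonneg_right hx' hk]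

end Assemble

end Pool.Agent.H41.AUG
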