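import Mathlib

set_option autoImplicit false

/-!
# Correspondence packing and maximum average degree: definitions and statements

Cells are pairs (row, column) in `Fin n × Fin n`.
-/

namespace Pool.Agent.H41.AUG

/-- cells -/
abbrev Cell (n : ℕ) := Fin n × Fin n

/-- the columns seen from the rows of `Z` -/
def nbr {n : ℕ} (U : Finset (Cell n)) (Z : Finset (Fin n)) : Finset (Fin n) :=
  Finset.univ.filter fun c => ∃ s ∈ Z, (s, c) ∈ U

/-- transpose -/
def tr {n : ℕ} (U : Finset (Cell n)) : Finset (Cell n) := U.image Prod.swap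

/-- the graph of a permutation -/
def gr {n : ℕ} (f : Equiv.Perm (Fin n)) : Finset (Cell n) := Finset.univ.image fun i => (i, f i)

/-- matching -/
def IsMatch {n : ℕ} (M : Finset (Cell n)) : Prop :=
  (∀ p ∈ M, ∀ q ∈ M, p.1 = q.1 → p = q) ∧ (∀ p ∈ M, ∀ q ∈ M, p.2 = q.2 → p = q)

/-- the deficiency of `U` is at most `m` -/
def DefLe {n : ℕ} (U : Finset (Cell n)) (m : ℕ) : Prop :=
  ∀ Z : Finset (Fin n), Z.card ≤ (nbr U Z).card + m

/-- `Z` is tight for `m` -/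
def Tight {n : ℕ} (U : Finset (Cell n)) (m : ℕ) (Z : Finset (Fin n)) : Prop :=
  Z.card = (nbr U Z).card + m

/-- `S` is the least tight set -/
def MinTight {n : ℕ} (U : Finset (Cell n)) (m : ℕ) (S : Finset (Fin n)) : Prop :=
  Tight U m S ∧ ∀ Z, Tight U m Z → S ⊆ Z

/-- number of cells of `A` in row `s` is at least `d`, for all rows -/
def RowGe {n : ℕ} (A : Finset (Cell n)) (d : ℕ) : Prop :=
  ∀ s : Fin n, d ≤ (A.filter fun p => p.1 = s).card

/-- number of cells of `A` in column `c` is at least `d`, for all columns -/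
def ColGe {n : ℕ} (A : Finset (Cell n)) (d : ℕ) : Prop :=
  ∀ c : Fin n, d ≤ (A.filter fun p => p.2 = c).card

/-- the uncovered cells of a family of permutations -/
def unc {n : ℕ} {ι : Type} [Fintype ι] (f : ι → Equiv.Perm (Fin n)) : Finset (Cell n) :=
  Finset.univ.filter fun p => ∀ u, f u p.1 ≠ p.2

/-- `s` is robust: it stays in the least tight set after deleting the graph of any permutation
disjoint from `M`. -/
def Rob {n : ℕ} (U M : Finset (Cell n)) (m : ℕ) (s : Fin n) : Prop :=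
  ∀ g : Equiv.Perm (Fin n), Disjoint (gr g) M → ∀ S, MinTight (U \ gr g) m S → s ∈ S

/-- A1 : Hall's theorem with deficiency, and its converse. -/
def S_HALLD : Prop := ∀ (n m : ℕ) (U : Finset (Cell n)),
  (DefLe U m → ∃ M ⊆ U, IsMatch M ∧ n ≤ M.card + m) ∧
  (∀ M ⊆ U, IsMatch M → n ≤ M.card + m → DefLe U m) ∧
  (DefLe U 0 → ∃ g : Equiv.Perm (Fin n), gr g ⊆ U)

/-- A2 : the least tight set exists; the deficiency is the same for the transpose. -/
def S_TIGHT : Prop := ∀ (n m : ℕ) (U : Finset (Cell n)), DefLe U m → (∃ Z, Tight U m Z) →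
  (∃ S, MinTight U m S) ∧ DefLe (tr U) m ∧ ∃ T, MinTight (tr U) m T

/-- A2' : adding a cell of the product of the two least tight sets lowers the deficiency. -/
def S_ADD : Prop := ∀ (n m : ℕ) (U : Finset (Cell n)) (S T : Finset (Fin n)) (s c : Fin n),
  DefLe U (m + 1) → MinTight U (m + 1) S → MinTight (tr U) (m + 1) T → s ∈ S → c ∈ T →
  DefLe (insert (s, c) U) m

/-- A3 : forced rows -/
def S_FORCE : Prop := ∀ (n δ : ℕ) (A : Finset (Cell n)) (f : Equiv.Perm (Fin n)),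
  gr f ⊆ A → RowGe A δ → ColGe A δ → ∀ Φ : Finset (Fin n), Φ.Nonempty →
  (∀ s ∈ Φ, ∀ g : Equiv.Perm (Fin n), gr g ⊆ A → g s = f s) → Φ.card + 2 * δ ≤ n

/-- A4 : deleting the graph of a permutation disjoint from a maximum matching. -/
def S_DEL : Prop := ∀ (n m e : ℕ) (U M : Finset (Cell n)) (g : Equiv.Perm (Fin n))
  (S S' : Finset (Fin n)), 1 ≤ m → DefLe U m → MinTight U m S → M ⊆ U → IsMatch M →
  n ≤ M.card + m → RowGe U e → Disjoint (gr g) M → MinTight (U \ gr g) m S' →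
  DefLe (U \ gr g) m ∧ S' ⊆ S ∧ e + m ≤ S'.card + 1 ∧
    ∀ s ∈ S, s ∉ S' → ∃ c ∈ nbr U S, (s, c) ∈ M ∧ (S'.filter fun x => (x, c) ∈ U).card ≤ 1

/-- A5 : the number of rows of the least tight set which are not robust -/
def S_NONROB : Prop := ∀ (n m e : ℕ) (U M : Finset (Cell n)) (S B : Finset (Fin n)),
  1 ≤ m → DefLe U m → MinTight U m S → M ⊆ U → IsMatch M → n ≤ M.card + m → RowGe U e →
  B ⊆ S → (∀ s ∈ B, ¬ Rob U M m s) →
  e + m ≤ S.card ∧ (B.card : ℤ) * (e - 1) ≤ (S.card : ℤ) * ((S.card : ℤ) - m - e)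

/-- A6 : cells covered exactly once -/
def S_ONCE : Prop := ∀ (n : ℕ) (ι : Type) [Fintype ι] [DecidableEq ι]
  (f : ι → Equiv.Perm (Fin n)) (S Y T' : Finset (Fin n)), T' ⊆ Y →
  (∀ s ∈ S, ∀ c ∈ Y, ∃ u, f u s = c) →
  (S.card : ℤ) * ((T'.card : ℤ) - (Fintype.card ι - Y.card)) ≤
    ((S ×ˢ T').filter fun p => (Finset.univ.filter fun u => f u p.1 = p.2).card = 1).card

/-- A7 : arithmetic -/
def S_ARITH : Prop := ∀ (e k m α β a b p q P : ℤ), 2 ≤ e → 1 ≤ m → 0 ≤ α → 0 ≤ β →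
  a = e + m + α → b = e + m + β → α + β + m ≤ k → 2 * k ≤ e + 1 → 0 ≤ p → 0 ≤ q →
  p * (e - 1) ≤ a * α → q * (e - 1) ≤ b * β →
  (a - p) * ((b - q) - α) ≤ P → (b - q) * ((a - p) - β) ≤ P →
  (e - k) * (2 * e + k - 3) ≤ 2 * P

/-- A8 : the augmentation lemma. `x` permutations, `y u - 1` constraints on `u`. -/
def S_AUG : Prop := ∀ (n m x : ℕ) (ι : Type) [Fintype ι] [DecidableEq ι]
  (f : ι → Equiv.Perm (Fin n)) (A : ι → Finset (Cell n)) (y : ι → ℕ),
  Fintype.card ι = x → x + 2 ≤ n → 5 * x ≤ 3 * n + 1 →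
  (∀ u, gr (f u) ⊆ A u) → (∀ u, RowGe (A u) (n + 1 - y u)) → (∀ u, ColGe (A u) (n + 1 - y u)) →
  (∀ u, 1 ≤ y u) → DefLe (unc f) (m + 1) → (∃ Z, Tight (unc f) (m + 1) Z) →
  (2 * (∑ u, (min x (2 * y u - n) : ℕ) : ℕ) : ℤ) < (2 * (n : ℤ) - 3 * x) * (n - 3) →
  ∃ (u : ι) (g : Equiv.Perm (Fin n)), gr g ⊆ A u ∧ DefLe (unc (Function.update f u g)) m

end Pool.Agent.H41.AUG
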