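import Pool.Agent.H41.AUG.Stmts

set_option autoImplicit false

/-!
# Refined counting (golden ratio version)
-/

namespace Pool.Agent.H41.AUG

open Classical in
/-- C1 : there are as many weak columns as non-robust rows; a weak column has at most one uncovered
cell in the robust rows. -/
def S_WEAK : Prop := ∀ (n m e : ℕ) (U M : Finset (Cell n)) (S : Finset (Fin n)),
  1 ≤ m → DefLe U m → MinTight U m S → M ⊆ U → IsMatch M → n ≤ M.card + m → RowGe U e →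
  ∃ K ⊆ nbr U S, K.card + (S.filter fun s => Rob U M m s).card = S.card ∧
    ∀ c ∈ K, ((S.filter fun s => Rob U M m s).filter fun x => (x, c) ∈ U).card ≤ 1

/-- C2 : counting. -/
def S_CNT : Prop := ∀ (n m x : ℕ) (ι : Type) [Fintype ι] [DecidableEq ι]
  (f : ι → Equiv.Perm (Fin n)) (S K Sr Tr : Finset (Fin n)),
  Fintype.card ι = x → Sr ⊆ S → S.card = (nbr (unc f) S).card + m → K ⊆ nbr (unc f) S →
  K.card + Sr.card = S.card → (∀ c ∈ K, (Sr.filter fun y => (y, c) ∈ unc f).card ≤ 1) →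
  (∀ c ∈ Tr, c ∉ nbr (unc f) S) →
  (Sr.card : ℤ) * (((n : ℤ) - x) + m - Sr.card) ≤ K.card ∧
  (Sr.card : ℤ) * ((Tr.card : ℤ) - Sr.card + ((n : ℤ) - x) + m) - K.card ≤
    ((Sr ×ˢ Tr).filter fun p => (Finset.univ.filter fun u => f u p.1 = p.2).card = 1).card

/-- C3 : arithmetic -/
def S_ARITH2 : Prop := ∀ (e k m a b p q P : ℤ), 2 ≤ e → 1 ≤ m → 0 ≤ a → 0 ≤ b → 0 ≤ p → 0 ≤ q →
  e + m ≤ a + p → e + m ≤ b + q → (a + p) + (b + q) ≤ k + 2 * e + m →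
  k < e →
  p * (e - 1) ≤ (a + p) * (a + p - m - e) → q * (e - 1) ≤ (b + q) * (b + q - m - e) →
  a * (e + m - a) ≤ p → b * (e + m - b) ≤ q →
  a * (b - a + e + m) - p ≤ P → b * (a - b + e + m) - q ≤ P →
  (e + 1) * (e + 1) + 1 - k ≤ P

/-- The forced rows lemma. -/
def S_FORCE2 : Prop := ∀ (n δ : ℕ) (A : Finset (Cell n)) (f : Equiv.Perm (Fin n)), 2 ≤ δ →
  gr f ⊆ A → RowGe A δ → ColGe A δ → ∀ Φ : Finset (Fin n), Φ.Nonempty →
  (∀ s ∈ Φ, ∀ g : Equiv.Perm (Fin n), gr g ⊆ A → g s = f s) → Φ.card + 2 * δ ≤ n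

/-- C4 : the augmentation lemma. `x` permutations, `y u - 1` constraints on `u`. -/
def S_AUG2 : Prop := ∀ (n m x : ℕ) (ι : Type) [Fintype ι] [DecidableEq ι]
  (f : ι → Equiv.Perm (Fin n)) (A : ι → Finset (Cell n)) (y : ι → ℕ),
  Fintype.card ι = x → x + 2 ≤ n → 3 * x < 2 * n →
  (∀ u, gr (f u) ⊆ A u) → (∀ u, RowGe (A u) (n + 1 - y u)) → (∀ u, ColGe (A u) (n + 1 - y u)) →
  (∀ u, 1 ≤ y u) → DefLe (unc f) (m + 1) → (∃ Z, Tight (unc f) (m + 1) Z) →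
  ((∑ u, min x (2 * y u - n) : ℕ) : ℤ) < ((n : ℤ) - x + 1) ^ 2 + 1 - (2 * x - n) →
  ∃ (u : ι) (g : Equiv.Perm (Fin n)), gr g ⊆ A u ∧ DefLe (unc (Function.update f u g)) m

end Pool.Agent.H41.AUG
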